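import Pool.Agent.Run7.h719.MO.Iface

/-! Piece POL of project MO (helper719): the Abel transform in polar coordinates. -/

set_option autoImplicit false

open MeasureTheory Set Filter Real
open scoped ContDiff

namespace Run7.h760.MO

open Run7.h719.MO

theorem t_POL : S_POL := by
  intro c k Ψ hk hΨ h0 x
  rcases le_or_gt x c with hx | hx
  · have hL : ∀ η : ℝ, Bop k Ψ (x - η ^ 2) = 0 := by
      intro η
      unfold Bop
      have h1 : ∀ σ : ℝ, Ψ (x - η ^ 2 - σ ^ 2) * k (x - η ^ 2 - σ ^ 2, x - η ^ 2) = 0 := by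
        intro σ
        rw [h0 _ (by nlinarith [sq_nonneg η, sq_nonneg σ]), zero_mul]
      simp [h1]
    have hR : ∫ τ in c..x, Lk k (τ, x) * Ψ τ = 0 := by
      rw [intervalIntegral.integral_congr (g := fun _ => (0 : ℝ))]
      · simp
      · intro τ hτ
        rw [uIcc_of_ge hx] at hτ
        simp only
        rw [h0 τ hτ.2, mul_zero]
    rw [hR]
    simp [hL]
  · set f : ℝ × ℝ → ℝ := fun p => Ψ (x - p.1 ^ 2 - p.2 ^ 2) * k (x - p.1 ^ 2 - p.2 ^ 2, x - p.1 ^ 2) with hf
    set T : ℝ := √(x - c) with hT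
    have hT0 : 0 < T := Real.sqrt_pos.2 (by linarith)
    have hT2 : T ^ 2 = x - c := Real.sq_sqrt (by linarith)
    have hfc : Continuous f := by
      rw [hf]; fun_prop
    have hf0 : ∀ p : ℝ × ℝ, x - c ≤ p.1 ^ 2 + p.2 ^ 2 → f p = 0 := by
      intro p hp
      rw [hf]
      simp only
      rw [h0 _ (by linarith), zero_mul]
    have hfs : HasCompactSupport f := by
      apply HasCompactSupport.intro (K := Icc (-T) T ×ˢ Icc (-T) T) (isCompact_Icc.prod isCompact_Icc)
      intro p hp
      apply hf0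
      by_contra hcon
      push Not at hcon
      apply hp
      rw [← hT2] at hcon
      have h1 : p.1 ^ 2 ≤ T ^ 2 := by nlinarith [sq_nonneg p.2]
      have h2 : p.2 ^ 2 ≤ T ^ 2 := by nlinarith [sq_nonneg p.1]
      have h3 := abs_le_of_sq_le_sq' h1 hT0.le
      have h4 := abs_le_of_sq_le_sq' h2 hT0.le
      exact ⟨⟨h3.1, h3.2⟩, ⟨h4.1, h4.2⟩⟩
    have hfi : Integrable f := hfc.integrable_of_hasCompactSupport hfs
    have hL : (∫ η : ℝ, Bop k Ψ (x - η ^ 2)) = ∫ p, f p := by
      rw [Measure.volume_eq_prod, integral_prod f (by rw [← Measure.volume_eq_prod]; exact hfi)]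
      rfl
    rw [hL, ← integral_comp_polarCoord_symm]
    set g : ℝ × ℝ → ℝ := fun p => p.1 • f (polarCoord.symm p) with hg
    have hgv : ∀ p : ℝ × ℝ, g p = p.1 * (Ψ (x - p.1 ^ 2) * k (x - p.1 ^ 2, x - p.1 ^ 2 * cos p.2 ^ 2)) := by
      intro p
      rw [hg, hf]
      simp only [polarCoord_symm_apply, smul_eq_mul]
      have h1 : x - (p.1 * cos p.2) ^ 2 - (p.1 * sin p.2) ^ 2 = x - p.1 ^ 2 := by
        have := Real.sin_sq_add_cos_sq p.2
        have h2 : (p.1 * cos p.2) ^ 2 + (p.1 * sin p.2) ^ 2 = p.1 ^ 2 := by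
          calc (p.1 * cos p.2) ^ 2 + (p.1 * sin p.2) ^ 2 = p.1 ^ 2 * (sin p.2 ^ 2 + cos p.2 ^ 2) := by ring
            _ = p.1 ^ 2 := by rw [this, mul_one]
        linarith
      rw [h1, mul_pow]
    have hgc : Continuous g := by
      have : g = fun p : ℝ × ℝ => p.1 * (Ψ (x - p.1 ^ 2) * k (x - p.1 ^ 2, x - p.1 ^ 2 * cos p.2 ^ 2)) := funext hgv
      rw [this]; fun_prop
    have hsub : Ioc 0 T ×ˢ Ioo (-π) π ⊆ polarCoord.target := by
      rw [polarCoord_target]
      exact prod_mono (fun y hy => hy.1) (le_refl _)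
    have h3 : ∫ p in polarCoord.target, g p = ∫ p in Ioc 0 T ×ˢ Ioo (-π) π, g p := by
      apply setIntegral_eq_of_subset_of_forall_sdiff_eq_zero polarCoord.open_target.measurableSet hsub
      intro p hp
      rw [polarCoord_target] at hp
      have h4 : T < p.1 := by
        by_contra hcon
        push Not at hcon
        exact hp.2 ⟨⟨hp.1.1, hcon⟩, hp.1.2⟩
      rw [hgv, h0 _ (by nlinarith), zero_mul, mul_zero]
    have hgi : IntegrableOn g (Ioc 0 T ×ˢ Ioo (-π) π) (volume.prod volume) := by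
      rw [← Measure.volume_eq_prod]
      have hK : IsCompact (Icc 0 T ×ˢ Icc (-π) π) := isCompact_Icc.prod isCompact_Icc
      exact (hgc.continuousOn.integrableOn_compact hK).mono_set (prod_mono Ioc_subset_Icc_self Ioo_subset_Icc_self)
    have h4 : ∫ p in Ioc 0 T ×ˢ Ioo (-π) π, g p = ∫ R in Ioc 0 T, ∫ φ in Ioo (-π) π, g (R, φ) := by
      rw [Measure.volume_eq_prod, setIntegral_prod g hgi]
    have hLc : Continuous (fun τ : ℝ => Lk k (τ, x)) := by
      unfold Lk
      apply intervalIntegral.continuous_parametric_intervalIntegral_of_continuous'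
      fun_prop
    set G : ℝ → ℝ := fun τ => Lk k (τ, x) * Ψ τ with hG
    have hGc : Continuous G := by rw [hG]; exact hLc.mul hΨ
    have h5 : ∀ R : ℝ, ∫ φ in Ioo (-π) π, g (R, φ) = 2 * R * G (x - R ^ 2) := by
      intro R
      have e1 : ∫ φ in Ioo (-π) π, g (R, φ) = ∫ φ in (-π)..π, g (R, φ) := by
        rw [intervalIntegral.integral_of_le (by linarith [Real.pi_pos]), integral_Ioc_eq_integral_Ioo]
      rw [e1, hG]
      simp only [Lk]
      have e2 : ∀ φ : ℝ, g (R, φ) = (2 * R * Ψ (x - R ^ 2)) * (k (x - R ^ 2, x - (x - (x - R ^ 2)) * cos φ ^ 2) / 2) := by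
        intro φ
        rw [hgv]
        simp only
        rw [show x - (x - R ^ 2) = R ^ 2 by ring]
        ring
      simp_rw [e2]
      rw [intervalIntegral.integral_const_mul]
      ring
    have h6 : ∫ R in Ioc 0 T, ∫ φ in Ioo (-π) π, g (R, φ) = ∫ R in (0 : ℝ)..T, 2 * R * G (x - R ^ 2) := by
      simp_rw [h5]
      rw [intervalIntegral.integral_of_le hT0.le]
    rw [h3, h4, h6]
    have h7 : ∫ R in (0 : ℝ)..T, (G ∘ fun R => x - R ^ 2) R * (-(2 * R)) = ∫ u in (x - (0 : ℝ) ^ 2)..(x - T ^ 2), G u := by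
      apply intervalIntegral.integral_comp_mul_deriv
      · intro R _
        have := (hasDerivAt_pow 2 R).const_sub x
        simpa using this
      · fun_prop
      · exact hGc
    have h8 : x - T ^ 2 = c := by rw [hT2]; ring
    rw [h8, show x - (0 : ℝ) ^ 2 = x by ring, intervalIntegral.integral_symm c x] at h7
    have h9 : ∫ R in (0 : ℝ)..T, 2 * R * G (x - R ^ 2) = -∫ R in (0 : ℝ)..T, (G ∘ fun R => x - R ^ 2) R * (-(2 * R)) := by
      rw [← intervalIntegral.integral_neg]
      apply intervalIntegral.integral_congr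
      intro R _
      simp only [Function.comp_apply]
      ring
    rw [h9, h7, neg_neg]

end Run7.h760.MO
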